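import Pool.Agent.K1H79.Q3.StmA

/-! # Project Q3, piece 9: cubes among the values of a quadratic polynomial modulo `p`

Owner helper40. -/

set_option autoImplicit false

namespace Pool.Agent.K1H40.Q3

open Finset
open Pool.Agent.K1H79.Q3

section
variable {p : ℕ} [Fact p.Prime]

/-- `∑ η(x) η(x + c) = -1` for `c ≠ 0` -/
theorem sum_qc_shift (hp : p ≠ 2) (c : ZMod p) (hc : c ≠ 0) :
    ∑ x : ZMod p, quadraticChar (ZMod p) x * quadraticChar (ZMod p) (x + c) = -1 := by
  classical
  have hchar : ringChar (ZMod p) ≠ 2 := by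
    rw [ZMod.ringChar_zmod_n]; exact hp
  have h1 : ∑ x : ZMod p, quadraticChar (ZMod p) x * quadraticChar (ZMod p) (x + c) =
      ∑ x ∈ univ.erase (0 : ZMod p), quadraticChar (ZMod p) (1 + c * x⁻¹) := by
    have h0 := Finset.add_sum_erase (univ : Finset (ZMod p))
      (fun x => quadraticChar (ZMod p) x * quadraticChar (ZMod p) (x + c)) (mem_univ (0 : ZMod p))
    rw [← h0]
    simp only [MulChar.map_zero, zero_mul, zero_add]
    refine Finset.sum_congr rfl fun x hx => ?_
    have hx0 : x ≠ 0 := Finset.ne_of_mem_erase hx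
    have e : x + c = x * (1 + c * x⁻¹) := by field_simp
    rw [e, map_mul, ← mul_assoc, ← sq, quadraticChar_sq_one hx0, one_mul]
  rw [h1]
  have h2 : ∑ x ∈ univ.erase (0 : ZMod p), quadraticChar (ZMod p) (1 + c * x⁻¹) =
      ∑ y ∈ univ.erase (1 : ZMod p), quadraticChar (ZMod p) y := by
    refine Finset.sum_bij' (fun x _ => 1 + c * x⁻¹) (fun y _ => c * (y - 1)⁻¹) ?_ ?_ ?_ ?_ ?_
    · intro x hx
      have hx0 : x ≠ 0 := Finset.ne_of_mem_erase hx
      refine Finset.mem_erase.2 ⟨?_, mem_univ _⟩
      intro h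
      have : c * x⁻¹ = 0 := by linear_combination h
      rcases mul_eq_zero.1 this with h | h
      · exact hc h
      · exact hx0 (inv_eq_zero.1 h)
    · intro y hy
      have hy1 : y - 1 ≠ 0 := sub_ne_zero.2 (Finset.ne_of_mem_erase hy)
      exact Finset.mem_erase.2 ⟨mul_ne_zero hc (inv_ne_zero hy1), mem_univ _⟩
    · intro x hx
      have hx0 : x ≠ 0 := Finset.ne_of_mem_erase hx
      simp only [add_sub_cancel_left]
      field_simp
    · intro y hy
      have hy1 : y - 1 ≠ 0 := sub_ne_zero.2 (Finset.ne_of_mem_erase hy)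
      field_simp
      ring
    · intro x hx; rfl
  rw [h2]
  have h3 := Finset.add_sum_erase (univ : Finset (ZMod p)) (fun y => quadraticChar (ZMod p) y)
    (mem_univ (1 : ZMod p))
  have h4 : ∑ y : ZMod p, quadraticChar (ZMod p) y = 0 := quadraticChar_sum_zero hchar
  simp only [map_one] at h3
  rw [h4] at h3
  linarith

/-- the cube roots -/
theorem card_cube_le (x : ZMod p) : (univ.filter fun a : ZMod p => a ^ 3 = x).card ≤ 3 := by
  classical
  have h : (univ.filter fun a : ZMod p => a ^ 3 = x) ⊆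
      (Polynomial.X ^ 3 - Polynomial.C x : Polynomial (ZMod p)).roots.toFinset := by
    intro a ha
    rw [Multiset.mem_toFinset, Polynomial.mem_roots (Polynomial.X_pow_sub_C_ne_zero (by norm_num) x)]
    simp only [Finset.mem_filter, Finset.mem_univ, true_and] at ha
    simp [ha]
  refine (Finset.card_le_card h).trans ((Multiset.toFinset_card_le _).trans ?_)
  refine (Polynomial.card_roots' _).trans ?_
  rw [Polynomial.natDegree_X_pow_sub_C]

/-- the cubic sum -/
noncomputable def SS (c D : ZMod p) : ℤ := ∑ a : ZMod p, quadraticChar (ZMod p) (c * a ^ 3 + D)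

theorem SS_scale (c D t : ZMod p) (ht : t ≠ 0) : SS (c * t ^ 3) D = SS c D := by
  unfold SS
  refine Finset.sum_bij' (fun a _ => t * a) (fun a _ => t⁻¹ * a) ?_ ?_ ?_ ?_ ?_
  · intro a _; exact mem_univ _
  · intro a _; exact mem_univ _
  · intro a _; field_simp
  · intro a _; field_simp
  · intro a _
    congr 1
    ring

theorem SS_mul (c D s : ZMod p) : SS (s * c) (s * D) = quadraticChar (ZMod p) s * SS c D := by
  unfold SS
  rw [Finset.mul_sum]
  refine Finset.sum_congr rfl fun a _ => ?_
  rw [← map_mul]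
  congr 1
  ring

theorem SS_sq_scale (D t : ZMod p) (ht : t ≠ 0) : SS 1 (D * t ^ 3) ^ 2 = SS 1 D ^ 2 := by
  have h1 : SS (t ^ 3 * 1) (t ^ 3 * D) = quadraticChar (ZMod p) (t ^ 3) * SS 1 D := SS_mul 1 D (t ^ 3)
  have h2 : SS (1 * t ^ 3) (t ^ 3 * D) = SS 1 (t ^ 3 * D) := SS_scale 1 _ t ht
  rw [mul_comm (t ^ 3) 1, h2] at h1
  rw [mul_comm D, h1, mul_pow, quadraticChar_sq_one (pow_ne_zero 3 ht), one_mul]

theorem SS_moment (hp : p ≠ 2) : ∑ D : ZMod p, SS 1 D ^ 2 ≤ 2 * (p : ℤ) ^ 2 := by
  classical
  have e1 : ∀ D : ZMod p, SS 1 D ^ 2 = ∑ a : ZMod p, ∑ b : ZMod p,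
      quadraticChar (ZMod p) (a ^ 3 + D) * quadraticChar (ZMod p) (b ^ 3 + D) := by
    intro D
    unfold SS
    rw [sq, Finset.sum_mul_sum]
    simp only [one_mul]
  have e2 : ∑ D : ZMod p, SS 1 D ^ 2 = ∑ a : ZMod p, ∑ b : ZMod p, ∑ D : ZMod p,
      quadraticChar (ZMod p) (a ^ 3 + D) * quadraticChar (ZMod p) (b ^ 3 + D) := by
    rw [Finset.sum_congr rfl fun D _ => e1 D, Finset.sum_comm]
    refine Finset.sum_congr rfl fun a _ => ?_
    rw [Finset.sum_comm]
  have e3 : ∀ a b : ZMod p, ∑ D : ZMod p,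
      quadraticChar (ZMod p) (a ^ 3 + D) * quadraticChar (ZMod p) (b ^ 3 + D) ≤
        (if b ^ 3 = a ^ 3 then (p : ℤ) else 0) - 1 := by
    intro a b
    have e4 : ∑ D : ZMod p, quadraticChar (ZMod p) (a ^ 3 + D) * quadraticChar (ZMod p) (b ^ 3 + D) =
        ∑ x : ZMod p, quadraticChar (ZMod p) x * quadraticChar (ZMod p) (x + (b ^ 3 - a ^ 3)) := by
      refine Finset.sum_bij' (fun D _ => a ^ 3 + D) (fun x _ => x - a ^ 3) ?_ ?_ ?_ ?_ ?_
      · intro _ _; exact mem_univ _
      · intro _ _; exact mem_univ _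
      · intro D _; ring
      · intro x _; ring
      · intro D _
        congr 2
        ring
    rw [e4]
    by_cases h : b ^ 3 = a ^ 3
    · rw [if_pos h, h, sub_self]
      simp only [add_zero]
      have h0 := Finset.add_sum_erase (univ : Finset (ZMod p))
        (fun x => quadraticChar (ZMod p) x * quadraticChar (ZMod p) x) (mem_univ (0 : ZMod p))
      rw [← h0]
      simp only [MulChar.map_zero, zero_mul, zero_add]
      have h5 : ∑ x ∈ univ.erase (0 : ZMod p), quadraticChar (ZMod p) x * quadraticChar (ZMod p) x =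
          ∑ x ∈ univ.erase (0 : ZMod p), (1 : ℤ) := by
        refine Finset.sum_congr rfl fun x hx => ?_
        rw [← sq, quadraticChar_sq_one (Finset.ne_of_mem_erase hx)]
      rw [h5, Finset.sum_const, Finset.card_erase_of_mem (mem_univ _), Finset.card_univ, ZMod.card,
        nsmul_eq_mul, mul_one, Nat.cast_sub (Fact.out : p.Prime).one_le]
      simp
    · rw [if_neg h, sum_qc_shift hp _ (sub_ne_zero.2 h)]
      norm_num
  rw [e2]
  calc ∑ a : ZMod p, ∑ b : ZMod p, ∑ D : ZMod p,
      quadraticChar (ZMod p) (a ^ 3 + D) * quadraticChar (ZMod p) (b ^ 3 + D)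
      ≤ ∑ a : ZMod p, ∑ b : ZMod p, ((if b ^ 3 = a ^ 3 then (p : ℤ) else 0) - 1) :=
        Finset.sum_le_sum fun a _ => Finset.sum_le_sum fun b _ => e3 a b
    _ ≤ ∑ a : ZMod p, (2 * (p : ℤ)) := by
        refine Finset.sum_le_sum fun a _ => ?_
        rw [Finset.sum_sub_distrib, ← Finset.sum_filter, Finset.sum_const, Finset.sum_const,
          Finset.card_univ, ZMod.card, nsmul_eq_mul, nsmul_eq_mul, mul_one]
        have h6 := card_cube_le (p := p) (a ^ 3)
        have h7 : (((univ.filter fun b : ZMod p => b ^ 3 = a ^ 3).card : ℕ) : ℤ) ≤ 3 := by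
          exact_mod_cast h6
        have hp0 : (0 : ℤ) ≤ p := by positivity
        nlinarith
    _ = 2 * (p : ℤ) ^ 2 := by
        rw [Finset.sum_const, Finset.card_univ, ZMod.card, nsmul_eq_mul]; ring

theorem SS_bound1 (hp : 7 ≤ p) (D : ZMod p) (hD : D ≠ 0) : SS 1 D ^ 2 ≤ 7 * (p : ℤ) := by
  classical
  have h1 : ∑ t ∈ univ.erase (0 : ZMod p), SS 1 (D * t ^ 3) ^ 2 = ((p : ℤ) - 1) * SS 1 D ^ 2 := by
    rw [Finset.sum_congr rfl fun t ht => SS_sq_scale D t (Finset.ne_of_mem_erase ht), Finset.sum_const,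
      Finset.card_erase_of_mem (mem_univ _), Finset.card_univ, ZMod.card, nsmul_eq_mul,
      Nat.cast_sub (Fact.out : p.Prime).one_le]
    simp
  have h2 : ∑ t ∈ univ.erase (0 : ZMod p), SS 1 (D * t ^ 3) ^ 2 ≤ 3 * ∑ x : ZMod p, SS 1 x ^ 2 := by
    calc ∑ t ∈ univ.erase (0 : ZMod p), SS 1 (D * t ^ 3) ^ 2
        ≤ ∑ t : ZMod p, SS 1 (D * t ^ 3) ^ 2 :=
          Finset.sum_le_sum_of_subset_of_nonneg (Finset.erase_subset _ _) fun _ _ _ => sq_nonneg _
      _ = ∑ x : ZMod p, ∑ t ∈ univ.filter (fun t : ZMod p => D * t ^ 3 = x), SS 1 (D * t ^ 3) ^ 2 :=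
          (Finset.sum_fiberwise _ _ _).symm
      _ = ∑ x : ZMod p, ((univ.filter (fun t : ZMod p => D * t ^ 3 = x)).card : ℤ) * SS 1 x ^ 2 := by
          refine Finset.sum_congr rfl fun x _ => ?_
          rw [Finset.sum_congr rfl (g := fun _ => SS 1 x ^ 2)
            (fun t ht => by rw [(Finset.mem_filter.1 ht).2]), Finset.sum_const, nsmul_eq_mul]
      _ ≤ ∑ x : ZMod p, 3 * SS 1 x ^ 2 := by
          refine Finset.sum_le_sum fun x _ => ?_
          refine mul_le_mul_of_nonneg_right ?_ (sq_nonneg _)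
          have h3 : (univ.filter (fun t : ZMod p => D * t ^ 3 = x)) ⊆
              univ.filter (fun t : ZMod p => t ^ 3 = D⁻¹ * x) := by
            intro t ht
            simp only [Finset.mem_filter, Finset.mem_univ, true_and] at ht ⊢
            rw [← ht]
            field_simp
          exact_mod_cast (Finset.card_le_card h3).trans (card_cube_le _)
      _ = 3 * ∑ x : ZMod p, SS 1 x ^ 2 := by rw [Finset.mul_sum]
  have h4 := SS_moment (p := p) (by omega)
  rw [h1] at h2
  have hp' : (7 : ℤ) ≤ p := by exact_mod_cast hp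
  have h5 : ((p : ℤ) - 1) * SS 1 D ^ 2 ≤ 6 * (p : ℤ) ^ 2 := by linarith
  by_contra hcon
  push Not at hcon
  nlinarith

theorem SS_bound (hp : 7 ≤ p) (c D : ZMod p) (hc : c ≠ 0) : (SS c D : ℝ) ≤ 3 * √p := by
  have hp2 : p ≠ 2 := by omega
  by_cases hD : D = 0
  · subst hD
    have h1 : SS c 0 = 0 := by
      unfold SS
      have hchar : ringChar (ZMod p) ≠ 2 := by
        rw [ZMod.ringChar_zmod_n]; exact hp2
      have h2 : ∀ a : ZMod p, quadraticChar (ZMod p) (c * a ^ 3 + 0) =
          quadraticChar (ZMod p) c * quadraticChar (ZMod p) a := by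
        intro a
        rw [add_zero, map_mul]
        congr 1
        by_cases ha : a = 0
        · subst ha; simp
        · rw [pow_succ, map_mul, map_pow, quadraticChar_sq_one ha, one_mul]
      rw [Finset.sum_congr rfl fun a _ => h2 a, ← Finset.mul_sum, quadraticChar_sum_zero hchar, mul_zero]
    rw [h1]
    simp
  · have h1 : SS (c * 1) (c * (c⁻¹ * D)) = quadraticChar (ZMod p) c * SS 1 (c⁻¹ * D) := SS_mul 1 _ c
    have h2 : c * (c⁻¹ * D) = D := by field_simp
    rw [mul_one, h2] at h1
    have h3 := SS_bound1 hp (c⁻¹ * D) (mul_ne_zero (inv_ne_zero hc) hD)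
    have h4 : SS c D ^ 2 ≤ 7 * (p : ℤ) := by
      rw [h1, mul_pow, quadraticChar_sq_one hc, one_mul]; exact h3
    have h5 : (SS c D : ℝ) ^ 2 ≤ 7 * (p : ℝ) := by exact_mod_cast h4
    refine abs_le_of_sq_le_sq' (b := 3 * √p) ?_ (by positivity) |>.2
    rw [mul_pow, Real.sq_sqrt (by positivity)]
    have : (0 : ℝ) ≤ p := by positivity
    linarith

/-- a primitive cube root of unity -/
theorem exists_omega (hp3 : p % 3 = 1) : ∃ w : ZMod p, w ≠ 1 ∧ w ^ 3 = 1 := by
  classical
  have : Fact (Nat.Prime 3) := ⟨by norm_num⟩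
  have hcard : Fintype.card (ZMod p)ˣ = p - 1 := ZMod.card_units p
  have hdvd : 3 ∣ Nat.card (ZMod p)ˣ := by
    rw [Nat.card_eq_fintype_card, hcard]; omega
  obtain ⟨g, hg⟩ := exists_prime_orderOf_dvd_card' (G := (ZMod p)ˣ) 3 hdvd
  refine ⟨(g : ZMod p), ?_, ?_⟩
  · intro h
    have : g = 1 := Units.ext (by simpa using h)
    rw [this, orderOf_one] at hg
    omega
  · have : g ^ 3 = 1 := by rw [← hg]; exact pow_orderOf_eq_one g
    have h2 := congrArg (Units.val) this
    simpa using h2

end

open scoped Classical in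
theorem t_CUB : S_CUB := by
  intro p hp hp3 P R S ζ hP hζ
  have hpr : p.Prime := hp.out
  have hp7 : 7 ≤ p := by
    by_contra hcon
    push Not at hcon
    interval_cases p <;> first | omega | exact absurd hpr (by norm_num)
  obtain ⟨w, hw1, hw3⟩ := exists_omega (p := p) hp3
  have hw0 : w ≠ 0 := by rintro rfl; simp at hw3
  have h20 : (2 : ZMod p) ≠ 0 := by
    intro h
    have := (ZMod.natCast_eq_zero_iff 2 p).1 (by exact_mod_cast h)
    have := Nat.le_of_dvd (by norm_num) this
    omega
  -- the pairs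
  set A : Finset (ZMod p × ZMod p) := univ.filter fun x => P * x.1 ^ 2 + R * x.1 + S = ζ * x.2 ^ 3 with hA
  set N : Finset (ZMod p) := univ.filter fun u : ZMod p => ∃ a : ZMod p, P * u ^ 2 + R * u + S = ζ * a ^ 3 with hN
  set Z : Finset (ZMod p) := univ.filter fun u : ZMod p => P * u ^ 2 + R * u + S = 0 with hZ
  have hZcard : Z.card ≤ 2 := by
    have hne : (Polynomial.C P * Polynomial.X ^ 2 + Polynomial.C R * Polynomial.X + Polynomial.C S :
        Polynomial (ZMod p)) ≠ 0 := by
      intro h
      have := congrArg (fun q => Polynomial.coeff q 2) h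
      simp at this
      exact hP this
    have hsub : Z ⊆ (Polynomial.C P * Polynomial.X ^ 2 + Polynomial.C R * Polynomial.X + Polynomial.C S :
        Polynomial (ZMod p)).roots.toFinset := by
      intro u hu
      rw [Multiset.mem_toFinset, Polynomial.mem_roots hne]
      simpa [hZ] using hu
    refine (Finset.card_le_card hsub).trans ((Multiset.toFinset_card_le _).trans ?_)
    refine (Polynomial.card_roots' _).trans ?_
    exact Polynomial.natDegree_quadratic_le
  -- three points over each element of `N \ Z`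
  have hfib : 3 * (N \ Z).card ≤ A.card := by
    have h1 : A.card = ∑ u : ZMod p, (univ.filter fun a : ZMod p => P * u ^ 2 + R * u + S = ζ * a ^ 3).card := by
      rw [hA, Finset.card_filter, Fintype.sum_prod_type]
      refine Finset.sum_congr rfl fun u _ => ?_
      rw [Finset.card_filter]
    rw [h1]
    calc 3 * (N \ Z).card = ∑ u ∈ N \ Z, 3 := by rw [Finset.sum_const, smul_eq_mul, mul_comm]
      _ ≤ ∑ u ∈ N \ Z, (univ.filter fun a : ZMod p => P * u ^ 2 + R * u + S = ζ * a ^ 3).card := by
          refine Finset.sum_le_sum fun u hu => ?_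
          rw [Finset.mem_sdiff, hN, hZ, Finset.mem_filter, Finset.mem_filter] at hu
          obtain ⟨⟨_, a, ha⟩, h0⟩ := hu
          have h0' : P * u ^ 2 + R * u + S ≠ 0 := fun h => h0 ⟨mem_univ _, h⟩
          have ha0 : a ≠ 0 := by rintro rfl; apply h0'; rw [ha]; simp
          have hsub : ({a, w * a, w ^ 2 * a} : Finset (ZMod p)) ⊆
              univ.filter fun a : ZMod p => P * u ^ 2 + R * u + S = ζ * a ^ 3 := by
            intro b hb
            simp only [Finset.mem_insert, Finset.mem_singleton] at hb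
            rw [Finset.mem_filter]
            refine ⟨mem_univ _, ?_⟩
            rcases hb with rfl | rfl | rfl
            · exact ha
            · rw [mul_pow, hw3, one_mul]; exact ha
            · rw [mul_pow, ← pow_mul, show 2 * 3 = 3 * 2 by norm_num, pow_mul, hw3, one_pow, one_mul]
              exact ha
          refine le_trans ?_ (Finset.card_le_card hsub)
          have hn1 : a ≠ w * a := by
            intro h
            apply hw1
            have : (w - 1) * a = 0 := by linear_combination -h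
            rcases mul_eq_zero.1 this with h | h
            · exact sub_eq_zero.1 h
            · exact absurd h ha0
          have hn2 : a ≠ w ^ 2 * a := by
            intro h
            have h2 : (w ^ 2 - 1) * a = 0 := by linear_combination -h
            rcases mul_eq_zero.1 h2 with h3 | h3
            · apply hw1
              have h4 : w ^ 2 = 1 := sub_eq_zero.1 h3
              calc w = w ^ 2 * w := by rw [h4, one_mul]
                _ = w ^ 3 := by ring
                _ = 1 := hw3
            · exact absurd h3 ha0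
          have hn3 : w * a ≠ w ^ 2 * a := by
            intro h
            apply hn1
            have h2 : w * (a - w * a) = 0 := by linear_combination h
            rcases mul_eq_zero.1 h2 with h3 | h3
            · exact absurd h3 hw0
            · exact sub_eq_zero.1 h3
          rw [Finset.card_insert_of_notMem (by simp [hn1, hn2]),
            Finset.card_insert_of_notMem (by simp [hn3]), Finset.card_singleton]
      _ ≤ ∑ u : ZMod p, (univ.filter fun a : ZMod p => P * u ^ 2 + R * u + S = ζ * a ^ 3).card :=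
          Finset.sum_le_sum_of_subset (Finset.subset_univ _)
  -- the number of pairs
  have hpairs : (A.card : ℤ) = p + SS (4 * P * ζ) (R ^ 2 - 4 * P * S) := by
    have hchar : ringChar (ZMod p) ≠ 2 := by
      rw [ZMod.ringChar_zmod_n]; omega
    have h1 : A.card = ∑ a : ZMod p, (univ.filter fun u : ZMod p => P * u ^ 2 + R * u + S = ζ * a ^ 3).card := by
      rw [hA, Finset.card_filter, Fintype.sum_prod_type_right]
      refine Finset.sum_congr rfl fun u _ => ?_
      rw [Finset.card_filter]
    have h2 : ∀ a : ZMod p, (((univ.filter fun u : ZMod p => P * u ^ 2 + R * u + S = ζ * a ^ 3).card : ℕ) : ℤ) =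
        quadraticChar (ZMod p) (4 * P * ζ * a ^ 3 + (R ^ 2 - 4 * P * S)) + 1 := by
      intro a
      rw [← quadraticChar_card_sqrts hchar (4 * P * ζ * a ^ 3 + (R ^ 2 - 4 * P * S))]
      congr 1
      refine Finset.card_bij' (fun u _ => 2 * P * u + R) (fun y _ => (y - R) * (2 * P)⁻¹) ?_ ?_ ?_ ?_
      · intro u hu
        rw [Finset.mem_filter] at hu
        simp only [Set.mem_toFinset, Set.mem_ofPred_eq]
        linear_combination 4 * P * hu.2
      · intro y hy
        simp only [Set.mem_toFinset, Set.mem_ofPred_eq] at hy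
        rw [Finset.mem_filter]
        refine ⟨mem_univ _, ?_⟩
        have hne : (4 * P) ≠ 0 := by
          have : (4 : ZMod p) = 2 * 2 := by norm_num
          rw [this]; exact mul_ne_zero (mul_ne_zero h20 h20) hP
        have h3 : 4 * P * (P * ((y - R) * (2 * P)⁻¹) ^ 2 + R * ((y - R) * (2 * P)⁻¹) + S) =
            4 * P * (ζ * a ^ 3) := by
          have h2P : 2 * P ≠ 0 := mul_ne_zero h20 hP
          have h4 : (2 * P) * (2 * P)⁻¹ = 1 := mul_inv_cancel₀ h2P
          have h5 : 4 * P * (P * ((y - R) * (2 * P)⁻¹) ^ 2 + R * ((y - R) * (2 * P)⁻¹) + S) =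
              ((y - R) * ((2 * P) * (2 * P)⁻¹)) ^ 2 + 2 * R * ((y - R) * ((2 * P) * (2 * P)⁻¹)) + 4 * P * S := by
            ring
          rw [h5, h4]
          linear_combination hy
        exact mul_left_cancel₀ hne h3
      · intro u hu
        have h2P : 2 * P ≠ 0 := mul_ne_zero h20 hP
        simp only [add_sub_cancel_right]
        field_simp
      · intro y hy
        have h2P : 2 * P ≠ 0 := mul_ne_zero h20 hP
        have h4 : (2 * P) * (2 * P)⁻¹ = 1 := mul_inv_cancel₀ h2P
        show 2 * P * ((y - R) * (2 * P)⁻¹) + R = y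
        linear_combination (y - R) * h4
    rw [h1]
    push_cast
    rw [Finset.sum_congr rfl fun a _ => h2 a, Finset.sum_add_distrib, Finset.sum_const, Finset.card_univ,
      ZMod.card, nsmul_eq_mul, mul_one, SS, add_comm]
  have hb := SS_bound hp7 (4 * P * ζ) (R ^ 2 - 4 * P * S) (by
    have : (4 : ZMod p) = 2 * 2 := by norm_num
    rw [this]; exact mul_ne_zero (mul_ne_zero (mul_ne_zero h20 h20) hP) hζ)
  have hAr : (A.card : ℝ) ≤ p + 3 * √p := by
    have : (A.card : ℝ) = p + (SS (4 * P * ζ) (R ^ 2 - 4 * P * S) : ℝ) := by exact_mod_cast hpairs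
    rw [this]; linarith
  have hNc : N.card ≤ (N \ Z).card + 2 := by
    have := Finset.card_le_card (Finset.subset_union_left (s₁ := N) (s₂ := Z))
    rw [← Finset.sdiff_union_self_eq_union] at this
    have h2 := Finset.card_union_le (N \ Z) Z
    omega
  have hNr : (N.card : ℝ) ≤ (N \ Z).card + 2 := by exact_mod_cast hNc
  have hf : 3 * ((N \ Z).card : ℝ) ≤ A.card := by exact_mod_cast hfib
  have hs : 0 ≤ √(p : ℝ) := Real.sqrt_nonneg _
  linarith

end Pool.Agent.K1H40.Q3
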