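import Pool.Agent.K1H79.Q3.StmA

/-! # Project Q3, piece 4: counting lattice points of `ℤ[ω]`

Owner helper40. -/

set_option autoImplicit false

namespace Pool.Agent.K1H40.Q3

open Finset MeasureTheory
open Pool.Agent.K1H79.Q3
open scoped ENNReal Pointwise

/-! ## The complex embedding -/

/-- `ω` -/
noncomputable def om : ℂ := ⟨-1 / 2, √3 / 2⟩

/-- the linear map `(a, b) ↦ a + b ω` -/
noncomputable def io (v : ℝ × ℝ) : ℂ := (v.1 : ℂ) + (v.2 : ℂ) * om

theorem io_add (v w : ℝ × ℝ) : io (v + w) = io v + io w := by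
  simp [io]; ring

theorem io_sub (v w : ℝ × ℝ) : io (v - w) = io v - io w := by
  simp [io]; ring

theorem io_smul (r : ℝ) (v : ℝ × ℝ) : io (r • v) = r * io v := by
  simp [io]; ring

theorem io_normSq (v : ℝ × ℝ) : ‖io v‖ ^ 2 = v.1 ^ 2 - v.1 * v.2 + v.2 ^ 2 := by
  rw [← Complex.normSq_eq_norm_sq, Complex.normSq_apply]
  simp only [io, om, Complex.add_re, Complex.ofReal_re, Complex.mul_re, Complex.ofReal_im,
    Complex.add_im, Complex.mul_im]
  have h3 : √3 * √3 = (3 : ℝ) := Real.mul_self_sqrt (by norm_num)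
  linear_combination (v.2 ^ 2 / 4) * h3

/-- the embedding of `ℤ[ω]` -/
noncomputable def vE (z : E) : ℝ × ℝ := ((z.re : ℝ), (z.im : ℝ))

theorem io_vE (z : E) : ‖io (vE z)‖ = √(nm z) := by
  have h1 : ‖io (vE z)‖ ^ 2 = (nm z : ℝ) := by
    rw [io_normSq]
    have h := nm_cast z
    have h2 : ((nm z : ℤ) : ℝ) = ((z.re ^ 2 - z.re * z.im + z.im ^ 2 : ℤ) : ℝ) := by rw [h]
    push_cast at h2
    rw [h2, vE]
  rw [← h1, Real.sqrt_sq (norm_nonneg _)]

theorem vE_add (z w : E) : vE (z + w) = vE z + vE w := by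
  simp [vE]

theorem vE_neg (z : E) : vE (-z) = -vE z := by
  simp [vE]

theorem sqrt_nm_add (z w : E) : √(nm (z + w)) ≤ √(nm z) + √(nm w) := by
  rw [← io_vE, ← io_vE, ← io_vE, vE_add, io_add]
  exact norm_add_le _ _

theorem nm_neg (z : E) : nm (-z) = nm z := by
  have h : ((nm (-z) : ℕ) : ℤ) = (nm z : ℤ) := by
    rw [nm_cast, nm_cast]; simp
  exact_mod_cast h

/-! ## The discs and the squares -/

/-- the disc of radius `R` -/
def DR (R : ℝ) : Set (ℝ × ℝ) := {v | ‖io v‖ ≤ R}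

theorem DR_mono {R S : ℝ} (h : R ≤ S) : DR R ⊆ DR S := fun _ hv => le_trans hv h

theorem DR_smul {R : ℝ} (hR : 0 < R) : DR R = R • DR 1 := by
  ext v
  rw [Set.mem_smul_set_iff_inv_smul_mem₀ hR.ne']
  simp only [DR, Set.mem_ofPred_eq, io_smul, norm_mul, Complex.norm_real, Real.norm_eq_abs,
    abs_of_pos (inv_pos.2 hR)]
  rw [inv_mul_le_iff₀ hR, mul_one]

theorem DR_bdd {R : ℝ} : DR R ⊆ Set.Icc (-(2 * R)) (2 * R) ×ˢ Set.Icc (-(2 * R)) (2 * R) := by
  intro v hv
  have h0 : 0 ≤ R := (norm_nonneg _).trans hv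
  have h1 : ‖io v‖ ^ 2 ≤ R ^ 2 := pow_le_pow_left₀ (norm_nonneg _) hv 2
  rw [io_normSq] at h1
  have a1 : v.1 ^ 2 ≤ (2 * R) ^ 2 := by nlinarith [sq_nonneg (2 * v.2 - v.1), sq_nonneg v.1]
  have a2 : v.2 ^ 2 ≤ (2 * R) ^ 2 := by nlinarith [sq_nonneg (2 * v.1 - v.2), sq_nonneg v.2]
  have b1 := abs_le_of_sq_le_sq' a1 (by positivity)
  have b2 := abs_le_of_sq_le_sq' a2 (by positivity)
  exact ⟨⟨b1.1, b1.2⟩, b2.1, b2.2⟩

theorem DR_lt_top (R : ℝ) : volume (DR R) < ⊤ := by
  refine (measure_mono DR_bdd).trans_lt ?_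
  rw [Measure.volume_eq_prod, Measure.prod_prod]
  exact ENNReal.mul_lt_top (by simp) (by simp)

/-- the area of the unit disc -/
noncomputable def rho0 : ℝ := (volume (DR 1)).toReal

theorem rho0_pos : 0 < rho0 := by
  refine ENNReal.toReal_pos ?_ (DR_lt_top 1).ne
  have h : Set.Icc (0 : ℝ) (1 / 2) ×ˢ Set.Icc (0 : ℝ) (1 / 2) ⊆ DR 1 := by
    rintro ⟨a, b⟩ ⟨⟨h1, h2⟩, h3, h4⟩
    simp only at h1 h2 h3 h4
    have h5 : ‖io (a, b)‖ ^ 2 ≤ 1 ^ 2 := by
      rw [io_normSq]
      simp only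
      nlinarith [mul_nonneg h1 h3]
    exact (abs_le_of_sq_le_sq' h5 zero_le_one).2
  have h1 := measure_mono (μ := volume) h
  rw [Measure.volume_eq_prod, Measure.prod_prod, Real.volume_Icc] at h1
  intro h0
  rw [Measure.volume_eq_prod] at h0
  rw [h0] at h1
  have : (0 : ℝ≥0∞) < ENNReal.ofReal (1 / 2 - 0) * ENNReal.ofReal (1 / 2 - 0) := by
    rw [← ENNReal.ofReal_mul (by norm_num)]
    exact ENNReal.ofReal_pos.2 (by norm_num)
  exact absurd h1 (not_le.2 this)

theorem vol_DR {R : ℝ} (hR : 0 ≤ R) : (volume (DR R)).toReal = rho0 * R ^ 2 := by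
  rcases hR.eq_or_lt with rfl | hR
  · have h0 : DR 0 ⊆ {(0 : ℝ × ℝ)} := by
      intro v hv
      have := DR_bdd hv
      simp only [mul_zero, neg_zero, Set.Icc_self, Set.mem_prod, Set.mem_singleton_iff] at this
      exact Prod.ext this.1 this.2
    have h1 : volume (DR 0) = 0 := by
      refine measure_mono_null h0 ?_
      exact measure_singleton _
    rw [h1]; simp
  · rw [DR_smul hR, Measure.addHaar_smul_of_nonneg _ hR.le]
    rw [ENNReal.toReal_mul, ENNReal.toReal_ofReal (by positivity)]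
    have : Module.finrank ℝ (ℝ × ℝ) = 2 := by simp
    rw [this, rho0, mul_comm]

/-- the unit square with corner `z` -/
def SQ (z : E) : Set (ℝ × ℝ) := Set.Ico (z.re : ℝ) (z.re + 1) ×ˢ Set.Ico (z.im : ℝ) (z.im + 1)

theorem SQ_vol (z : E) : volume (SQ z) = 1 := by
  rw [SQ, Measure.volume_eq_prod, Measure.prod_prod, Real.volume_Ico, Real.volume_Ico]
  simp

theorem SQ_meas (z : E) : MeasurableSet (SQ z) := measurableSet_Ico.prod measurableSet_Ico

theorem SQ_disj {z w : E} (h : z ≠ w) : Disjoint (SQ z) (SQ w) := by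
  rw [Set.disjoint_left]
  rintro v ⟨⟨a1, a2⟩, a3, a4⟩ ⟨⟨b1, b2⟩, b3, b4⟩
  apply h
  have e1 : z.re = w.re := by
    have h1 : (z.re : ℝ) < w.re + 1 := lt_of_le_of_lt a1 b2
    have h2 : (w.re : ℝ) < z.re + 1 := lt_of_le_of_lt b1 a2
    have h1' : z.re < w.re + 1 := by exact_mod_cast h1
    have h2' : w.re < z.re + 1 := by exact_mod_cast h2
    omega
  have e2 : z.im = w.im := by
    have h1 : (z.im : ℝ) < w.im + 1 := lt_of_le_of_lt a3 b4
    have h2 : (w.im : ℝ) < z.im + 1 := lt_of_le_of_lt b3 a4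
    have h1' : z.im < w.im + 1 := by exact_mod_cast h1
    have h2' : w.im < z.im + 1 := by exact_mod_cast h2
    omega
  exact QuadraticAlgebra.ext e1 e2

theorem SQ_near {z : E} {v : ℝ × ℝ} (h : v ∈ SQ z) : ‖io (v - vE z)‖ ≤ 2 := by
  obtain ⟨⟨a1, a2⟩, a3, a4⟩ := h
  have h5 : ‖io (v - vE z)‖ ^ 2 ≤ 2 ^ 2 := by
    rw [io_normSq]
    simp only [vE, Prod.fst_sub, Prod.snd_sub]
    have b1 : 0 ≤ v.1 - z.re := by linarith
    have b2 : v.1 - z.re ≤ 1 := by linarith
    have b3 : 0 ≤ v.2 - z.im := by linarith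
    have b4 : v.2 - z.im ≤ 1 := by linarith
    nlinarith [mul_nonneg b1 b3]
  exact (abs_le_of_sq_le_sq' h5 (by norm_num)).2

open scoped Classical in
/-- the main count -/
theorem card_EB (T : ℕ) : |((EB T).card : ℝ) - rho0 * T| ≤ (8 * rho0 + 1) * √T := by
  rcases Nat.eq_zero_or_pos T with rfl | hT
  · have : EB 0 = ∅ := by
      ext z
      rw [mem_EB]
      simp only [Finset.notMem_empty, iff_false, not_and]
      intro h h2
      exact absurd (nm_pos h) (by omega)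
    rw [this]; simp
  have hT1 : (1 : ℝ) ≤ T := by exact_mod_cast hT
  have hs1 : 1 ≤ √(T : ℝ) := by rw [Real.one_le_sqrt]; exact hT1
  have hss : √(T : ℝ) * √(T : ℝ) = T := Real.mul_self_sqrt (by positivity)
  have hr := rho0_pos
  set Z : Finset E := insert 0 (EB T) with hZ
  have hZc : Z.card = (EB T).card + 1 := by
    rw [hZ, Finset.card_insert_of_notMem]
    rw [mem_EB]; simp
  have hZm : ∀ z : E, z ∈ Z ↔ nm z ≤ T := by
    intro z
    rw [hZ, Finset.mem_insert, mem_EB]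
    constructor
    · rintro (rfl | h)
      · rw [nm_zero]; omega
      · exact h.2
    · intro h
      by_cases h0 : z = 0
      · exact Or.inl h0
      · exact Or.inr ⟨h0, h⟩
  have hU : volume (⋃ z ∈ Z, SQ z) = (Z.card : ℝ≥0∞) := by
    rw [measure_biUnion_finset (fun z _ w _ h => SQ_disj h) (fun z _ => SQ_meas z)]
    simp [SQ_vol]
  have hU' : (volume (⋃ z ∈ Z, SQ z)).toReal = (Z.card : ℝ) := by
    rw [hU]; simp
  have hup : (⋃ z ∈ Z, SQ z) ⊆ DR (√T + 2) := by
    intro v hv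
    simp only [Set.mem_iUnion] at hv
    obtain ⟨z, hz, hv⟩ := hv
    have h1 := SQ_near hv
    have h2 : ‖io (vE z)‖ ≤ √T := by
      rw [io_vE]
      exact Real.sqrt_le_sqrt (by exact_mod_cast (hZm z).1 hz)
    have h3 : io v = io (v - vE z) + io (vE z) := by rw [← io_add, sub_add_cancel]
    show ‖io v‖ ≤ √T + 2
    rw [h3]
    exact (norm_add_le _ _).trans (by linarith)
  have hlow : DR (√T - 2) ⊆ ⋃ z ∈ Z, SQ z := by
    intro v hv
    have hv' : ‖io v‖ ≤ √T - 2 := hv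
    set z : E := ⟨⌊v.1⌋, ⌊v.2⌋⟩ with hz
    have hvz : v ∈ SQ z := by
      refine ⟨⟨Int.floor_le _, Int.lt_floor_add_one _⟩, Int.floor_le _, Int.lt_floor_add_one _⟩
    simp only [Set.mem_iUnion]
    refine ⟨z, ?_, hvz⟩
    rw [hZm]
    have h1 := SQ_near hvz
    have h3 : io (vE z) = io v - io (v - vE z) := by rw [← io_sub, sub_sub_cancel]
    have h4 : ‖io (vE z)‖ ≤ √T := by
      rw [h3]
      exact (norm_sub_le _ _).trans (by linarith)
    rw [io_vE] at h4
    have h5 : (nm z : ℝ) ≤ T := (Real.sqrt_le_sqrt_iff (by positivity)).1 h4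
    exact_mod_cast h5
  have hUf : volume (⋃ z ∈ Z, SQ z) ≠ ⊤ := by rw [hU]; simp
  have h1 : (Z.card : ℝ) ≤ rho0 * (√T + 2) ^ 2 := by
    rw [← hU', ← vol_DR (by positivity)]
    exact ENNReal.toReal_mono (DR_lt_top _).ne (measure_mono hup)
  have hZr : (Z.card : ℝ) = (EB T).card + 1 := by rw [hZc]; push_cast; ring
  have h2 : rho0 * (T - 4 * √T) ≤ (Z.card : ℝ) := by
    by_cases hs : 2 ≤ √(T : ℝ)
    · have h3 : rho0 * (√T - 2) ^ 2 ≤ (Z.card : ℝ) := by
        rw [← hU', ← vol_DR (by linarith)]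
        exact ENNReal.toReal_mono hUf (measure_mono hlow)
      nlinarith
    · push Not at hs
      have h3 : (T : ℝ) - 4 * √T ≤ 0 := by nlinarith
      have h4 : rho0 * (T - 4 * √T) ≤ 0 := mul_nonpos_of_nonneg_of_nonpos hr.le h3
      exact h4.trans (by positivity)
  rw [abs_le]
  constructor
  · nlinarith
  · nlinarith

/-! ## The five counts -/

theorem card_EB_nat (T : ℕ) : (EB T).card ≤ 12 * T := by
  classical
  rcases Nat.eq_zero_or_pos T with rfl | hT
  · have : EB 0 = ∅ := by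
      ext z
      rw [mem_EB]
      simp only [Finset.notMem_empty, iff_false, not_and]
      intro h h2
      exact absurd (nm_pos h) (by omega)
    rw [this]; simp
  obtain ⟨a, ha1, ha2⟩ : ∃ a : ℕ, a * a ≤ 4 * T / 3 ∧ 4 * T / 3 < (a + 1) * (a + 1) :=
    ⟨Nat.sqrt (4 * T / 3), Nat.sqrt_le _, Nat.lt_succ_sqrt _⟩
  obtain ⟨b, hb1, hb2⟩ : ∃ b : ℕ, b * b ≤ 4 * T ∧ 4 * T < (b + 1) * (b + 1) :=
    ⟨Nat.sqrt (4 * T), Nat.sqrt_le _, Nat.lt_succ_sqrt _⟩
  have hmem : ∀ z ∈ EB T, z.im ∈ Finset.Icc (-(a : ℤ)) a := by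
    intro z hz
    have h1 : z.re ^ 2 - z.re * z.im + z.im ^ 2 ≤ (T : ℤ) := by
      rw [← nm_cast]; exact_mod_cast (mem_EB.1 hz).2
    have h2 : 3 * z.im ^ 2 ≤ 4 * (T : ℤ) := by nlinarith [sq_nonneg (2 * z.re - z.im)]
    have h3 : z.im ^ 2 < ((a : ℤ) + 1) ^ 2 := by
      have h4 : (4 * (T : ℤ)) / 3 < ((a : ℤ) + 1) * ((a : ℤ) + 1) := by exact_mod_cast ha2
      have h5 : z.im ^ 2 ≤ (4 * (T : ℤ)) / 3 := by
        rw [Int.le_ediv_iff_mul_le (by norm_num)]; linarith
      nlinarith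
    have h6 := abs_lt_of_sq_lt_sq h3 (by positivity)
    rw [abs_lt] at h6
    rw [Finset.mem_Icc]
    omega
  have hfib : ∀ y ∈ Finset.Icc (-(a : ℤ)) a, ((EB T).filter fun z => z.im = y).card ≤ b + 1 := by
    intro y _
    have h1 : ((EB T).filter fun z => z.im = y).card ≤
        (Finset.Icc ((y - b + 1) / 2) ((y + b) / 2)).card := by
      refine Finset.card_le_card_of_injOn (fun z => z.re) ?_ ?_
      · intro z hz
        have hz' := Finset.mem_filter.1 hz
        have h1 : z.re ^ 2 - z.re * z.im + z.im ^ 2 ≤ (T : ℤ) := by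
          rw [← nm_cast]; exact_mod_cast (mem_EB.1 hz'.1).2
        rw [hz'.2] at h1
        have h2 : (2 * z.re - y) ^ 2 ≤ 4 * (T : ℤ) := by nlinarith [sq_nonneg y]
        have h3 : (2 * z.re - y) ^ 2 < ((b : ℤ) + 1) ^ 2 := by
          have h4 : 4 * (T : ℤ) < ((b : ℤ) + 1) * ((b : ℤ) + 1) := by exact_mod_cast hb2
          nlinarith
        have h6 := abs_lt_of_sq_lt_sq h3 (by positivity)
        rw [abs_lt] at h6
        simp only [Finset.coe_Icc, Set.mem_Icc]
        omega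
      · intro z hz w hw h
        have hz' := Finset.mem_filter.1 hz
        have hw' := Finset.mem_filter.1 hw
        exact QuadraticAlgebra.ext h (hz'.2.trans hw'.2.symm)
    refine h1.trans ?_
    rw [Int.card_Icc]
    omega
  rw [Finset.card_eq_sum_card_fiberwise (f := fun z : E => z.im) (t := Finset.Icc (-(a : ℤ)) a)
    (fun z hz => hmem z hz)]
  refine (Finset.sum_le_sum hfib).trans ?_
  rw [Finset.sum_const, smul_eq_mul, Int.card_Icc]
  have e : ((a : ℤ) + 1 - -(a : ℤ)).toNat = 2 * a + 1 := by omega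
  rw [e]
  have h3 : 3 * (a * a) ≤ 4 * T := by omega
  have h4 : a ≤ a * a := Nat.le_mul_self a
  have h5 : 4 * b ≤ b * b + 4 := by nlinarith [sq_nonneg ((b : ℤ) - 2)]
  have h6 : 4 * (a * b) ≤ 4 * (a * a) + b * b := by
    zify
    nlinarith [sq_nonneg (2 * (a : ℤ) - b)]
  nlinarith

theorem card_EB_le (T : ℕ) : ((EB T).card : ℝ) ≤ 12 * T := by
  exact_mod_cast card_EB_nat T

theorem EB_mono {S T : ℕ} (h : S ≤ T) : EB S ⊆ EB T := by
  intro z hz
  rw [mem_EB] at hz ⊢
  exact ⟨hz.1, hz.2.trans h⟩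

open scoped Classical in
theorem annulus (T : ℕ) (w : E) : (((EB T).filter fun z => T < nm (z + w)).card : ℝ) ≤
    (20 * rho0 + 20) * (√(T * nm w) + nm w + 1) := by
  have hr := rho0_pos
  have hn0 : (0 : ℝ) ≤ nm w := by positivity
  have hq : 0 ≤ √((T : ℝ) * nm w) := Real.sqrt_nonneg _
  by_cases hw : w = 0
  · subst hw
    have : ((EB T).filter fun z => T < nm (z + 0)) = ∅ := by
      ext z
      simp only [Finset.mem_filter, mem_EB, add_zero, Finset.notMem_empty, iff_false, not_and, not_lt]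
      intro h; exact h.2
    rw [this]
    simp only [Finset.card_empty, Nat.cast_zero]
    positivity
  have hn1 : (1 : ℝ) ≤ nm w := by exact_mod_cast nm_pos hw
  by_cases hT : T ≤ nm w
  · have h1 : (((EB T).filter fun z => T < nm (z + w)).card : ℝ) ≤ 12 * T :=
      (by exact_mod_cast Finset.card_filter_le _ _ :
        (((EB T).filter fun z => T < nm (z + w)).card : ℝ) ≤ (EB T).card).trans (card_EB_le T)
    have h2 : (T : ℝ) ≤ nm w := by exact_mod_cast hT
    nlinarith [mul_nonneg hr.le hn0, mul_nonneg hr.le hq]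
  push Not at hT
  have hT' : (nm w : ℝ) < T := by exact_mod_cast hT
  set s := √(T : ℝ) with hs
  set t := √(nm w : ℝ) with ht
  have hss : s * s = T := Real.mul_self_sqrt (by positivity)
  have htt : t * t = nm w := Real.mul_self_sqrt (by positivity)
  have hst : √((T : ℝ) * nm w) = s * t := Real.sqrt_mul (by positivity) _
  have ht1 : 1 ≤ t := by rw [ht, Real.one_le_sqrt]; exact hn1
  have hts : t ≤ s := Real.sqrt_le_sqrt hT'.le
  set T' : ℕ := ⌊(s - t) ^ 2⌋₊ with hT'def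
  have hT1 : (T' : ℝ) ≤ (s - t) ^ 2 := Nat.floor_le (by positivity)
  have hT2 : (s - t) ^ 2 < T' + 1 := Nat.lt_floor_add_one _
  have hTT : T' ≤ T := by
    have : (T' : ℝ) ≤ T := by nlinarith
    exact_mod_cast this
  have hsub : ((EB T).filter fun z => T < nm (z + w)) ⊆ EB T \ EB T' := by
    intro z hz
    rw [Finset.mem_filter] at hz
    rw [Finset.mem_sdiff]
    refine ⟨hz.1, fun h => ?_⟩
    have h1 : (nm z : ℝ) ≤ (s - t) ^ 2 := le_trans (by exact_mod_cast (mem_EB.1 h).2) hT1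
    have h2 : √(nm z : ℝ) ≤ s - t := by
      rw [← Real.sqrt_sq (by linarith : 0 ≤ s - t)]
      exact Real.sqrt_le_sqrt h1
    have h3 := sqrt_nm_add z w
    have h4 : √(nm (z + w) : ℝ) ≤ s := by linarith
    have h5 : (nm (z + w) : ℝ) ≤ T := (Real.sqrt_le_sqrt_iff (by positivity)).1 h4
    have h6 : nm (z + w) ≤ T := by exact_mod_cast h5
    omega
  have hcard : (((EB T).filter fun z => T < nm (z + w)).card : ℝ) ≤ (EB T).card - (EB T').card := by
    have h1 := Finset.card_le_card hsub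
    rw [Finset.card_sdiff_of_subset (EB_mono hTT)] at h1
    have h2 := Finset.card_le_card (EB_mono hTT)
    have h3 : ((EB T).filter fun z => T < nm (z + w)).card + (EB T').card ≤ (EB T).card := by omega
    have h4 : ((((EB T).filter fun z => T < nm (z + w)).card : ℕ) : ℝ) + (EB T').card ≤ (EB T).card := by
      exact_mod_cast h3
    linarith
  have a1 := (abs_le.1 (card_EB T)).2
  have a2 := (abs_le.1 (card_EB T')).1
  have a3 : √(T' : ℝ) ≤ s := Real.sqrt_le_sqrt (by exact_mod_cast hTT)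
  have a4 : (8 * rho0 + 1) * √(T' : ℝ) ≤ (8 * rho0 + 1) * s :=
    mul_le_mul_of_nonneg_left a3 (by positivity)
  have a5 : s ≤ s * t := by nlinarith [Real.sqrt_nonneg (T : ℝ)]
  have a6 : (8 * rho0 + 1) * s ≤ (8 * rho0 + 1) * (s * t) :=
    mul_le_mul_of_nonneg_left a5 (by positivity)
  have a7 : (T : ℝ) - T' ≤ 2 * (s * t) + 1 := by nlinarith
  have a8 : rho0 * ((T : ℝ) - T') ≤ rho0 * (2 * (s * t) + 1) := mul_le_mul_of_nonneg_left a7 hr.le
  rw [hst]
  have hst0 : 0 ≤ s * t := by positivity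
  have e1 : (20 * rho0 + 20) * (s * t + nm w + 1) =
    20 * rho0 * (s * t) + 20 * (s * t) + (20 * rho0 + 20) * nm w + (20 * rho0 + 20) := by ring
  rw [e1]
  have e2 : 0 ≤ (20 * rho0 + 20) * (nm w : ℝ) := by positivity
  have e3 : 0 ≤ rho0 * (s * t) := by positivity
  change ((EB T).card : ℝ) - rho0 * T ≤ (8 * rho0 + 1) * s at a1
  nlinarith

open scoped Classical in
theorem card_mult (T : ℕ) (a : E) (ha : a ≠ 0) :
    ((EB T).filter fun z => a ∣ z).card = (EB (T / nm a)).card := by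
  have ha1 := nm_pos ha
  symm
  refine Finset.card_bij (fun z _ => a * z) ?_ ?_ ?_
  · intro z hz
    rw [mem_EB] at hz
    rw [Finset.mem_filter, mem_EB]
    refine ⟨⟨mul_ne_zero ha hz.1, ?_⟩, dvd_mul_right _ _⟩
    rw [nm_mul, mul_comm]
    exact (Nat.le_div_iff_mul_le ha1).1 hz.2
  · intro z _ w _ h
    exact mul_left_cancel₀ ha h
  · intro z hz
    rw [Finset.mem_filter, mem_EB] at hz
    obtain ⟨⟨h0, h1⟩, m, rfl⟩ := hz
    refine ⟨m, ?_, rfl⟩
    rw [mem_EB]
    refine ⟨fun h => h0 (by rw [h, mul_zero]), ?_⟩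
    rw [nm_mul, mul_comm] at h1
    exact (Nat.le_div_iff_mul_le ha1).2 h1

theorem two_re : (2 : E).re = 2 := by
  have h : (2 : E) = 1 + 1 := by norm_num
  rw [h, QuadraticAlgebra.re_add, QuadraticAlgebra.re_one]; rfl

theorem two_im : (2 : E).im = 0 := by
  have h : (2 : E) = 1 + 1 := by norm_num
  rw [h, QuadraticAlgebra.im_add, QuadraticAlgebra.im_one]; rfl

theorem nm_two : nm (2 : E) = 4 := by
  have h : ((nm (2 : E) : ℕ) : ℤ) = 4 := by
    rw [nm_cast, two_re, two_im]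
    norm_num
  exact_mod_cast h

theorem odd_nm_iff (z : E) : Odd (nm z) ↔ ¬ (2 : E) ∣ z := by
  constructor
  · rintro h ⟨m, rfl⟩
    rw [nm_mul, nm_two] at h
    rcases h with ⟨k, hk⟩
    omega
  · intro h
    rw [← Nat.not_even_iff_odd]
    intro he
    apply h
    have h1 : ((nm z : ℕ) : ℤ) % 2 = 0 := by
      obtain ⟨k, hk⟩ := he
      rw [hk]; push_cast; omega
    rw [nm_cast] at h1
    have h2 : z.re % 2 = 0 ∧ z.im % 2 = 0 := by
      rcases Int.emod_two_eq_zero_or_one z.re with hr | hr <;>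
      rcases Int.emod_two_eq_zero_or_one z.im with hi | hi
      · exact ⟨hr, hi⟩
      all_goals
        exfalso
        have h3 : (z.re ^ 2 - z.re * z.im + z.im ^ 2) % 2 =
            ((z.re % 2) ^ 2 - (z.re % 2) * (z.im % 2) + (z.im % 2) ^ 2) % 2 := by
          simp [Int.add_emod, Int.sub_emod, Int.mul_emod, pow_two]
        rw [h3, hr, hi] at h1
        norm_num at h1
    refine ⟨⟨z.re / 2, z.im / 2⟩, ?_⟩
    apply QuadraticAlgebra.ext
    · have h4 : ((2 : E) * ⟨z.re / 2, z.im / 2⟩).re = 2 * (z.re / 2) := by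
        simp [QuadraticAlgebra.re_mul, two_re, two_im]
      rw [h4]; omega
    · have h4 : ((2 : E) * ⟨z.re / 2, z.im / 2⟩).im = 2 * (z.im / 2) := by
        simp [QuadraticAlgebra.im_mul, two_re, two_im]
      rw [h4]; omega

open scoped Classical in
theorem card_odd (T : ℕ) :
    |((((EB T).filter fun z => Odd (nm z)).card : ℕ) : ℝ) - (3 / 4 * rho0) * T| ≤
      (20 * rho0 + 20) * √T := by
  have hr := rho0_pos
  rcases Nat.eq_zero_or_pos T with rfl | hT
  · have : EB 0 = ∅ := by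
      ext z
      rw [mem_EB]
      simp only [Finset.notMem_empty, iff_false, not_and]
      intro h h2
      exact absurd (nm_pos h) (by omega)
    rw [this]; simp
  have hT1 : (1 : ℝ) ≤ T := by exact_mod_cast hT
  have hs1 : 1 ≤ √(T : ℝ) := by rw [Real.one_le_sqrt]; exact hT1
  have h1 : ((EB T).filter fun z => Odd (nm z)).card + (EB (T / 4)).card = (EB T).card := by
    have h2 := card_mult T 2 (by intro h; have := nm_two; rw [h, nm_zero] at this; omega)
    rw [nm_two] at h2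
    rw [← h2, add_comm, ← Finset.card_filter_add_card_filter_not (s := EB T) (fun z => (2 : E) ∣ z)]
    congr 2
    ext z
    simp only [Finset.mem_filter, odd_nm_iff]
  have h2 : ((((EB T).filter fun z => Odd (nm z)).card : ℕ) : ℝ) + (EB (T / 4)).card = (EB T).card := by
    exact_mod_cast h1
  have a1 := abs_le.1 (card_EB T)
  have a2 := abs_le.1 (card_EB (T / 4))
  have b1 : ((T / 4 : ℕ) : ℝ) ≤ T / 4 := Nat.cast_div_le
  have b2 : (T : ℝ) / 4 - 1 ≤ ((T / 4 : ℕ) : ℝ) := by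
    have h3 : T < 4 * (T / 4) + 4 := by omega
    have h4 : (T : ℝ) < 4 * ((T / 4 : ℕ) : ℝ) + 4 := by exact_mod_cast h3
    linarith
  have b3 : √((T / 4 : ℕ) : ℝ) ≤ √(T : ℝ) := Real.sqrt_le_sqrt (by linarith)
  have b4 : (8 * rho0 + 1) * √((T / 4 : ℕ) : ℝ) ≤ (8 * rho0 + 1) * √(T : ℝ) :=
    mul_le_mul_of_nonneg_left b3 (by positivity)
  have b5 : rho0 * ((T / 4 : ℕ) : ℝ) ≤ rho0 * (T / 4) := mul_le_mul_of_nonneg_left b1 hr.le
  have b6 : rho0 * ((T : ℝ) / 4 - 1) ≤ rho0 * ((T / 4 : ℕ) : ℝ) := mul_le_mul_of_nonneg_left b2 hr.le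
  rw [abs_le]
  constructor <;> nlinarith

theorem t_ECT : S_ECT := by
  classical
  have hr := rho0_pos
  refine ⟨card_EB_le, ⟨20 * rho0 + 20, by positivity, fun T w => ?_⟩,
    ⟨20 * rho0 + 20, by positivity, fun T w => ?_⟩, fun T a ha => ?_,
    3 / 4 * rho0, 20 * rho0 + 20, by positivity, by positivity, fun T => ?_⟩
  · exact annulus T w
  · have h := annulus T (-w)
    rw [nm_neg] at h
    simpa only [← sub_eq_add_neg] using h
  · have h1 := card_mult T a ha
    rw [h1]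
    refine (card_EB_le _).trans ?_
    have : ((T / nm a : ℕ) : ℝ) ≤ (T : ℝ) / nm a := Nat.cast_div_le
    linarith
  · exact card_odd T

end Pool.Agent.K1H40.Q3
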